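import Pool.Agent.Helper51.LT.St

/-!
# HAR: Schwarz-Pick closeness to the identity
-/

set_option autoImplicit false

namespace Pool.Agent.Helper98.LT

open Complex MeasureTheory Set Metric Filter Topology
open scoped Real ENNReal
open Pool.Agent.Helper51.LT

/-- algebra of the Pick map -/
lemma pick_le (w : ℂ) (a : ℝ) (ha : 0 ≤ a) (ha1 : a ≤ 1) (hw : ‖w‖ ≤ 1) :
    ‖w - (a : ℂ)‖ ≤ ‖1 - (a : ℂ) * w‖ := by
  have h1 : ‖w - (a : ℂ)‖ ^ 2 = (w.re - a) ^ 2 + w.im ^ 2 := by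
    rw [Complex.sq_norm, Complex.normSq_apply]
    simp
    ring
  have h2 : ‖1 - (a : ℂ) * w‖ ^ 2 = (1 - a * w.re) ^ 2 + (a * w.im) ^ 2 := by
    rw [Complex.sq_norm, Complex.normSq_apply]
    simp
    ring
  have h3 : w.re ^ 2 + w.im ^ 2 ≤ 1 := by
    have h4 : ‖w‖ ^ 2 = w.re ^ 2 + w.im ^ 2 := by
      rw [Complex.sq_norm, Complex.normSq_apply]
      ring
    rw [← h4]
    nlinarith [norm_nonneg w]
  have h5 : ‖w - (a : ℂ)‖ ^ 2 ≤ ‖1 - (a : ℂ) * w‖ ^ 2 := by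
    rw [h1, h2]
    have h6 : 0 ≤ (1 - a ^ 2) * (1 - (w.re ^ 2 + w.im ^ 2)) := by
      apply mul_nonneg
      · nlinarith
      · linarith
    nlinarith
  exact (pow_le_pow_iff_left₀ (norm_nonneg _) (norm_nonneg _) two_ne_zero).mp h5

/-- Schwarz-Pick at the origin, strict version -/
lemma pick_strict (φ : ℂ → ℂ) (lam : ℝ) (hd : DifferentiableOn ℂ φ (ball 0 1))
    (hb : ∀ z ∈ ball (0 : ℂ) 1, ‖φ z‖ ≤ 1) (h0 : φ 0 = (lam : ℂ)) (hl : 0 < lam) (hl1 : lam ≤ 1)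
    (s : ℝ) (hs0 : 0 < s) (hs1 : s < 1) (z : ℂ) (hz : z ∈ ball (0 : ℂ) 1) :
    ‖(s : ℂ) * φ z - ((s * lam : ℝ) : ℂ)‖ ≤ ‖z‖ * ‖1 - ((s * lam : ℝ) : ℂ) * ((s : ℂ) * φ z)‖ := by
  have ha0 : 0 ≤ s * lam := by positivity
  have ha1 : s * lam < 1 := by nlinarith
  have hwb : ∀ x ∈ ball (0 : ℂ) 1, ‖(s : ℂ) * φ x‖ ≤ 1 := by
    intro x hx
    rw [norm_mul, Complex.norm_real, Real.norm_eq_abs, abs_of_pos hs0]
    nlinarith [hb x hx, norm_nonneg (φ x)]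
  have hne : ∀ x ∈ ball (0 : ℂ) 1, (1 : ℂ) - ((s * lam : ℝ) : ℂ) * ((s : ℂ) * φ x) ≠ 0 := by
    intro x hx h
    have h1 : ‖((s * lam : ℝ) : ℂ) * ((s : ℂ) * φ x)‖ = 1 := by
      have h2 : ((s * lam : ℝ) : ℂ) * ((s : ℂ) * φ x) = 1 := by
        linear_combination -h
      rw [h2]
      simp
    rw [norm_mul, Complex.norm_real, Real.norm_eq_abs, abs_of_nonneg ha0] at h1
    nlinarith [hwb x hx, norm_nonneg ((s : ℂ) * φ x)]
  set m : ℂ → ℂ := fun x => ((s : ℂ) * φ x - ((s * lam : ℝ) : ℂ)) /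
    (1 - ((s * lam : ℝ) : ℂ) * ((s : ℂ) * φ x)) with hm
  have hmd : DifferentiableOn ℂ m (ball 0 1) := by
    apply DifferentiableOn.div
    · exact (hd.const_mul _).sub_const _
    · exact ((hd.const_mul _).const_mul _).const_sub _
    · exact hne
  have hmb : MapsTo m (ball (0 : ℂ) 1) (closedBall (0 : ℂ) 1) := by
    intro x hx
    rw [mem_closedBall_zero_iff, hm]
    simp only
    rw [norm_div, div_le_one (norm_pos_iff.mpr (hne x hx))]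
    exact pick_le _ _ ha0 ha1.le (hwb x hx)
  have hm0 : m 0 = 0 := by
    rw [hm]
    simp only
    rw [h0]
    push_cast
    simp
  have hS := Complex.norm_le_norm_of_mapsTo_ball hmd hmb hm0 (mem_ball_zero_iff.mp hz)
  rw [hm] at hS
  simp only at hS
  rw [norm_div, div_le_iff₀ (norm_pos_iff.mpr (hne z hz))] at hS
  exact hS

/-- Schwarz-Pick at the origin -/
lemma pick (φ : ℂ → ℂ) (lam : ℝ) (hd : DifferentiableOn ℂ φ (ball 0 1))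
    (hb : ∀ z ∈ ball (0 : ℂ) 1, ‖φ z‖ ≤ 1) (h0 : φ 0 = (lam : ℂ)) (hl : 0 < lam) (hl1 : lam ≤ 1)
    (z : ℂ) (hz : z ∈ ball (0 : ℂ) 1) :
    ‖φ z - (lam : ℂ)‖ ≤ ‖z‖ * ‖1 - (lam : ℂ) * φ z‖ := by
  have h1 : Tendsto (fun s : ℝ => ‖(s : ℂ) * φ z - ((s * lam : ℝ) : ℂ)‖) (𝓝[<] 1)
      (𝓝 ‖((1 : ℝ) : ℂ) * φ z - (((1 : ℝ) * lam : ℝ) : ℂ)‖) := by
    apply Tendsto.mono_left _ nhdsWithin_le_nhds
    apply Continuous.tendsto (f := fun s : ℝ => ‖(s : ℂ) * φ z - ((s * lam : ℝ) : ℂ)‖)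
    fun_prop
  have h2 : Tendsto (fun s : ℝ => ‖z‖ * ‖1 - ((s * lam : ℝ) : ℂ) * ((s : ℂ) * φ z)‖) (𝓝[<] 1)
      (𝓝 (‖z‖ * ‖1 - (((1 : ℝ) * lam : ℝ) : ℂ) * (((1 : ℝ) : ℂ) * φ z)‖)) := by
    apply Tendsto.mono_left _ nhdsWithin_le_nhds
    apply Continuous.tendsto
      (f := fun s : ℝ => ‖z‖ * ‖1 - ((s * lam : ℝ) : ℂ) * ((s : ℂ) * φ z)‖)
    fun_prop
  have h3 := le_of_tendsto_of_tendsto h1 h2 (by
    filter_upwards [Ioo_mem_nhdsLT (show (0 : ℝ) < 1 by norm_num)] with s hs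
    exact pick_strict φ lam hd hb h0 hl hl1 s hs.1 hs.2 z hz)
  simpa using h3

theorem hHar : StHar := by
  intro h lam hBU h0 hder hl hl1 z hz
  obtain ⟨⟨hdiff, _⟩, hbd⟩ := hBU
  have hz1 : ‖z‖ < 1 := mem_ball_zero_iff.mp hz
  have hmaps : MapsTo h (ball (0 : ℂ) 1) (closedBall (h 0) 1) := by
    intro x hx
    rw [h0, mem_closedBall_zero_iff]
    exact hbd x hx
  have hφd : DifferentiableOn ℂ (dslope h 0) (ball 0 1) :=
    (Complex.differentiableOn_dslope (isOpen_ball.mem_nhds (mem_ball_self one_pos))).mpr hdiff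
  have hφb : ∀ x ∈ ball (0 : ℂ) 1, ‖dslope h 0 x‖ ≤ 1 := by
    intro x hx
    have := Complex.norm_dslope_le_div_of_mapsTo_ball hdiff hmaps hx
    simpa using this
  have hφ0 : dslope h 0 0 = (lam : ℂ) := by rw [dslope_same, hder]
  have hP := pick _ lam hφd hφb hφ0 hl hl1 z hz
  set w : ℂ := dslope h 0 z with hw
  have hzw : h z - z = z * (w - 1) := by
    have h1 : z • dslope h 0 z = h z := by
      have h2 := sub_smul_dslope h 0 z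
      rw [h0] at h2
      simpa using h2
    have h3 : h z = z * w := by rw [← h1, hw, smul_eq_mul]
    rw [h3]
    ring
  have hx0 : 0 ≤ ‖z‖ := norm_nonneg z
  have hA : ‖1 - (lam : ℂ) * w‖ ≤ (1 - lam ^ 2) + lam * ‖w - (lam : ℂ)‖ := by
    have h1 : (1 : ℂ) - (lam : ℂ) * w = ((1 - lam ^ 2 : ℝ) : ℂ) - (lam : ℂ) * (w - (lam : ℂ)) := by
      push_cast
      ring
    rw [h1]
    refine (norm_sub_le _ _).trans ?_
    rw [norm_mul, Complex.norm_real, Complex.norm_real, Real.norm_eq_abs, Real.norm_eq_abs,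
      abs_of_pos hl, abs_of_nonneg (by nlinarith : (0 : ℝ) ≤ 1 - lam ^ 2)]
  have hD0 : 0 ≤ ‖w - (lam : ℂ)‖ := norm_nonneg _
  have hB : ‖w - (lam : ℂ)‖ * (1 - ‖z‖) ≤ ‖z‖ * (1 - lam ^ 2) := by
    have h1 : ‖w - (lam : ℂ)‖ ≤ ‖z‖ * ((1 - lam ^ 2) + lam * ‖w - (lam : ℂ)‖) :=
      hP.trans (mul_le_mul_of_nonneg_left hA hx0)
    have h2 : ‖z‖ * (lam * ‖w - (lam : ℂ)‖) ≤ ‖z‖ * ‖w - (lam : ℂ)‖ := by
      apply mul_le_mul_of_nonneg_left _ hx0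
      nlinarith
    nlinarith
  have hC : ‖w - 1‖ ≤ ‖w - (lam : ℂ)‖ + (1 - lam) := by
    have h1 : w - 1 = (w - (lam : ℂ)) - (((1 - lam : ℝ)) : ℂ) := by
      push_cast
      ring
    rw [h1]
    refine (norm_sub_le _ _).trans ?_
    rw [Complex.norm_real, Real.norm_eq_abs, abs_of_nonneg (by linarith : (0 : ℝ) ≤ 1 - lam)]
  have hE : (1 - ‖z‖) * ‖w - 1‖ ≤ 2 * (1 - lam) := by
    have h1 : (1 - ‖z‖) * ‖w - 1‖ ≤ (1 - ‖z‖) * (‖w - (lam : ℂ)‖ + (1 - lam)) :=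
      mul_le_mul_of_nonneg_left hC (by linarith)
    have h2 : ‖z‖ * (1 - lam ^ 2) + (1 - ‖z‖) * (1 - lam) ≤ 2 * (1 - lam) := by
      have h3 : ‖z‖ * (1 - lam ^ 2) + (1 - ‖z‖) * (1 - lam) = (1 - lam) * (1 + ‖z‖ * lam) := by
        ring
      rw [h3]
      have h4 : 1 + ‖z‖ * lam ≤ 2 := by nlinarith
      nlinarith
    nlinarith
  rw [hzw, norm_mul]
  have hF : 0 ≤ (1 - ‖z‖) * ‖w - 1‖ := mul_nonneg (by linarith) (norm_nonneg _)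
  nlinarith

end Pool.Agent.Helper98.LT
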